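import Pool.Agent.Lib.MP_df705a_gt.Mg.G014

/-!
# Density of the range of the Laplacian
-/

open scoped Manifold ContDiff Topology
open Set Bundle Module Filter MeasureTheory

noncomputable section

namespace Pool.Agent.Lib.MP_df705a_gt.Coll

open Pool.Agent.Lib.MP_df705a_gt.Twist Pool.Agent.Lib.MP_df705a_gt.Perm
open Pool.Agent.Lib.MP_df705a_gt.Circ (Horizontal Submersion cf Para HorConf)
open Pool.Agent.Lib.MP_df705a_gt.Fib (RiemSub Biconformal)

variable {E : Type*} [NormedAddCommGroup E] [NormedSpace ℝ E] [FiniteDimensional ℝ E]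
  {M : Type*} [TopologicalSpace M] [ChartedSpace E M] [IsManifold 𝓘(ℝ, E) ∞ M]
  [MeasurableSpace E] [BorelSpace E] [MeasurableSpace M] [BorelSpace M]
  [CompactSpace M] [T2Space M]
  {g : Met E M} {μ : Measure M}

set_option linter.unusedSectionVars false

namespace DenseAux

theorem cmem (hμ : IsRVol g μ) {f : M → ℝ} (hf : Continuous f) : MemLp f 2 μ := by
  have := hμ.fin
  obtain ⟨C, hC⟩ : ∃ C, ∀ y, ‖f y‖ ≤ C := by
    obtain ⟨C, hC⟩ := isCompact_univ.exists_bound_of_continuousOn hf.continuousOn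
    exact ⟨C, fun y => hC y (mem_univ y)⟩
  exact MemLp.of_bound (hf.integrable_of_hasCompactSupport
    (HasCompactSupport.of_compactSpace f)).aestronglyMeasurable C (Eventually.of_forall hC)

theorem lap_c (g : Met E M) {φ : M → ℝ} (hφ : Sm E φ) : Continuous (Lap g φ) :=
  (Circ.sm_lap g hφ).continuous

theorem toLp_zero_of (hμ : IsRVol g μ) {f : M → ℝ} (hf : MemLp f 2 μ) (h0 : ∀ x, f x = 0) :
    hf.toLp f = 0 := by
  have _ := hμ.fin
  have h1 : f = 0 := funext h0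
  subst h1
  exact MemLp.toLp_zero _

/-- The range of the Laplacian. -/
def rng (hμ : IsRVol g μ) : Submodule ℝ (Lp ℝ 2 μ) where
  carrier := {v | ∃ (φ : M → ℝ) (hφ : Sm E φ), v = (cmem hμ (lap_c g hφ)).toLp (Lap g φ)}
  add_mem' := by
    rintro v w ⟨φ, hφ, rfl⟩ ⟨ψ, hψ, rfl⟩
    refine ⟨fun x => φ x + ψ x, sm_add hφ hψ, ?_⟩
    rw [← MemLp.toLp_add]
    refine MemLp.toLp_congr _ _ (Eventually.of_forall fun x => ?_)
    exact (lap_add g hφ hψ x).symm
  zero_mem' := by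
    refine ⟨fun _ => 0, sm_const 0, ?_⟩
    exact (toLp_zero_of hμ _ (fun x => lap_const g 0 x)).symm
  smul_mem' := by
    rintro c v ⟨φ, hφ, rfl⟩
    refine ⟨fun x => c * φ x, sm_smul hφ c, ?_⟩
    rw [← MemLp.toLp_const_smul]
    refine MemLp.toLp_congr _ _ (Eventually.of_forall fun x => ?_)
    exact (lap_smul g hφ c x).symm

end DenseAux

open DenseAux in
/-- Proof: in the Hilbert space `Lp ℝ 2 μ` let `V` be the closure of the subspace
`{Δ φ}`; if `f ∉ V` then `r = f - proj_V f ≠ 0` is orthogonal to all `Δ φ`, so it is a constant by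
`harm_const`, and `⟪r, f⟫ = c ∫ f = 0`, but `⟪r, f⟫ = ‖r‖²`. Subtract the mean from `φ`. -/
theorem lap_dense [ConnectedSpace M] (hd : 0 < finrank ℝ E) (hμ : IsRVol g μ) {f : M → ℝ}
    (hf : Sm E f) (h0 : ∫ p, f p ∂μ = 0) {η : ℝ} (hη : 0 < η) :
    ∃ φ : M → ℝ, Sm E φ ∧ ∫ p, φ p ∂μ = 0 ∧ ∫ p, (Lap g φ p - f p) ^ 2 ∂μ ≤ η := by
  have hfin := hμ.fin
  have hfm : MemLp f 2 μ := cmem hμ hf.continuous
  set F : Lp ℝ 2 μ := hfm.toLp f with hF
  have hmem : F ∈ (rng hμ).topologicalClosure := by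
    rw [← Submodule.orthogonal_orthogonal_eq_closure, Submodule.mem_orthogonal]
    intro r hr
    rw [Submodule.mem_orthogonal] at hr
    obtain ⟨c, hc⟩ := harm_const hd hμ (r := r) (Lp.memLp r) (fun φ hφ => by
      have h1 := hr _ ⟨φ, hφ, rfl⟩
      rw [L2.inner_def] at h1
      rw [← h1]
      refine integral_congr_ae ?_
      filter_upwards [(cmem hμ (lap_c g hφ)).coeFn_toLp] with x hx
      rw [hx]
      simp)
    rw [L2.inner_def]
    have h2 : ∫ x, inner ℝ (r x) (F x) ∂μ = ∫ x, c * f x ∂μ := by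
      refine integral_congr_ae ?_
      filter_upwards [hc, hfm.coeFn_toLp] with x hx hx2
      rw [hx, hF, hx2]
      simp [mul_comm]
    rw [h2, integral_const_mul, h0, mul_zero]
  have hcl : F ∈ closure ((rng hμ : Submodule ℝ (Lp ℝ 2 μ)) : Set (Lp ℝ 2 μ)) := hmem
  rw [Metric.mem_closure_iff] at hcl
  obtain ⟨v, ⟨φ, hφ, rfl⟩, hv⟩ := hcl (√ η) (Real.sqrt_pos.2 hη)
  have hV := HarmAux.vol_pos hμ
  set a : ℝ := (∫ p, φ p ∂μ) / μ.real univ with ha
  refine ⟨fun x => φ x + -a, sm_add hφ (sm_const (-a)), ?_, ?_⟩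
  · have h1 : ∫ p, (φ p + -a) ∂μ = ∫ p, φ p ∂μ + ∫ _, -a ∂μ :=
      integral_add (HarmAux.cint hμ hφ.continuous) (HarmAux.cint hμ continuous_const)
    rw [h1, HarmAux.int_const' hμ, ha]
    field_simp
    ring
  · have hL : ∀ p, Lap g (fun x => φ x + -a) p = Lap g φ p := by
      intro p
      rw [lap_add g hφ (sm_const (-a)), lap_const, add_zero]
    simp only [hL]
    rw [dist_comm, dist_eq_norm, ← MemLp.toLp_sub] at hv
    have hm : MemLp (Lap g φ - f) 2 μ := (cmem hμ (lap_c g hφ)).sub hfm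
    have h1 : ‖hm.toLp (Lap g φ - f)‖ ^ 2 = ∫ p, (Lap g φ p - f p) ^ 2 ∂μ := by
      rw [← real_inner_self_eq_norm_sq, L2.inner_def]
      refine integral_congr_ae ?_
      filter_upwards [hm.coeFn_toLp] with x hx
      rw [hx]
      simp [sq]
    rw [← h1]
    have h2 : ‖hm.toLp (Lap g φ - f)‖ < √ η := hv
    have h3 := pow_le_pow_left₀ (norm_nonneg _) h2.le 2
    rwa [Real.sq_sqrt hη.le] at h3

end Pool.Agent.Lib.MP_df705a_gt.Coll
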