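import Pool.Agent.Lib.MP_df705a_gt.Mg.G011

/-!
# Subsolutions of the Poisson equation
-/

open scoped Manifold ContDiff Topology
open Set Bundle Module Filter MeasureTheory

noncomputable section

namespace Pool.Agent.Lib.MP_df705a_gt.Coll

open Pool.Agent.Lib.MP_df705a_gt.Twist Pool.Agent.Lib.MP_df705a_gt.Perm
open Pool.Agent.Lib.MP_df705a_gt.Circ (Horizontal Submersion cf Para HorConf)
open Pool.Agent.Lib.MP_df705a_gt.Fib (RiemSub Biconformal)

variable {E : Type*} [NormedAddCommGroup E] [NormedSpace ℝ E] [FiniteDimensional ℝ E]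
  {M : Type*} [TopologicalSpace M] [ChartedSpace E M] [IsManifold 𝓘(ℝ, E) ∞ M]
  [MeasurableSpace E] [BorelSpace E] [MeasurableSpace M] [BorelSpace M]
  [CompactSpace M] [T2Space M]
  {g : Met E M} {μ : Measure M}

/-- Proof: `Perm.dichotomy` for the system of `exists_sys`, `V = R` and a large constant `c`. First
alternative: `w > 0` with `-c Δ w + R w > 0`; take `f = c log w`,
`Δ f = c (Δ w / w - |d w|² / w²) < R`. Second alternative, with `ε = (∫ R) / (2 μ(M))`: `u > 0` with
`-c Δ u + R u < ε u`; multiply by `u` and integrate (Green): `∫ R u² + c ∫ |du|² ≤ ε ∫ u²`; write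
`u = a + z` with `∫ z = 0`, `∫ z² ≤ C ∫ |du|²` (Poincaré):
`a² ∫ R - 2 |a| ‖R‖ ‖z‖ - sup |R| ‖z‖² + (c / C) ‖z‖² ≤ ε (a² μ(M) + ‖z‖²)`, impossible for `c` large
(and `u ≠ 0`). -/
theorem exists_lap_lt [ConnectedSpace M] (hd : 0 < finrank ℝ E) (hμ : IsRVol g μ) {R : M → ℝ}
    (hR : Continuous R) (h0 : 0 < ∫ p, R p ∂μ) :
    ∃ f : M → ℝ, Sm E f ∧ ∀ p, Lap g f p < R p := by
  have hfin := hμ.fin
  have : SecondCountableTopology M := ChartedSpace.secondCountable_of_sigmaCompact E M
  obtain ⟨A, hS, hLap, -⟩ := exists_sys g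
  obtain ⟨CP, hCP, hpoin⟩ := poincare (g := g) hμ
  obtain ⟨x₀⟩ : Nonempty M := inferInstance
  have ic : ∀ {f : M → ℝ}, Continuous f → Integrable f μ := fun hf =>
    LocAux.integrable_cont μ hf
  obtain ⟨S, hSb⟩ := isCompact_univ.exists_bound_of_continuousOn (f := R) hR.continuousOn
  have hS0 : 0 ≤ S := (norm_nonneg _).trans (hSb x₀ (mem_univ x₀))
  have hV : 0 < ∫ _ : M, (1 : ℝ) ∂μ := hμ.pos continuous_const (fun _ => zero_le_one)
    (p := x₀) one_pos
  set V := ∫ _ : M, (1 : ℝ) ∂μ with hVd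
  set IR := ∫ p, R p ∂μ with hIR
  set ε := IR / (2 * V) with hε
  have hε0 : 0 < ε := by positivity
  have hεV : ε * V = IR / 2 := by rw [hε]; field_simp
  set δ := ε / 2 with hδ
  have hδ0 : 0 < δ := by positivity
  set c := (S ^ 2 / δ + S + ε) * CP + 1 with hc
  have hc0 : 0 < c := by positivity
  rcases dichotomy A hc0 hR hε0 with ⟨w, hw, hwp, hwL⟩ | ⟨u, hu, hup, huL⟩
  · rw [hS] at hw
    have hφ : ∀ x, ContDiffAt ℝ ∞ (fun t : ℝ => c * Real.log t) (w x) := fun x =>
      contDiffAt_const.mul (Real.contDiffAt_log.mpr (hwp x).ne')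
    refine ⟨fun x => c * Real.log (w x), sm_comp hw hφ, fun x => ?_⟩
    have h1 := lap_comp g hw hφ x
    rw [h1]
    have hd1 : ∀ t : ℝ, deriv (fun t : ℝ => c * Real.log t) t = c * t⁻¹ := by
      intro t
      rw [deriv_const_mul_field, Real.deriv_log]
    have hd2 : deriv (deriv (fun t : ℝ => c * Real.log t)) (w x) = -(c * (w x ^ 2)⁻¹) := by
      have : deriv (fun t : ℝ => c * Real.log t) = fun t => c * t⁻¹ := funext hd1
      rw [this, deriv_const_mul_field, deriv_inv]
      ring
    rw [hd1, hd2]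
    have h2 := hwL x
    unfold LapSys.op at h2
    rw [hLap] at h2
    have h3 : 0 ≤ c * (w x ^ 2)⁻¹ * Grd g w w x :=
      mul_nonneg (by have := hwp x; positivity) (grd_nonneg g w x)
    have h4 : c * (w x)⁻¹ * Lap g w x < R x := by
      have h5 := hwp x
      rw [mul_assoc, inv_mul_eq_div, ← mul_div_assoc, div_lt_iff₀ h5]
      linarith
    linarith
  · exfalso
    rw [hS] at hu
    have huc : Continuous u := ContMDiff.continuous hu
    have hLc : Continuous (Lap g u) := ContMDiff.continuous (Circ.sm_lap g hu)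
    have hGc : Continuous (Grd g u u) := ContMDiff.continuous (Circ.sm_grd g hu hu)
    set G := ∫ p, Grd g u u p ∂μ with hG
    have hG0 : 0 ≤ G := integral_nonneg fun q => grd_nonneg g u q
    -- Green
    have hgreen := hμ.green hu hu
    have i1 : Integrable (fun p => u p * Lap g u p) μ := ic (huc.mul hLc)
    have i2 : Integrable (fun p => Grd g u u p) μ := ic hGc
    rw [integral_add i1 i2] at hgreen
    have iR : Integrable (fun p => R p * u p ^ 2) μ := ic (hR.mul (huc.pow 2))
    have iu2 : Integrable (fun p => u p ^ 2) μ := ic (huc.pow 2)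
    have hineq : c * G + ∫ p, R p * u p ^ 2 ∂μ ≤ ε * ∫ p, u p ^ 2 ∂μ := by
      have e1 : ∫ p, (-c * (u p * Lap g u p) + R p * u p ^ 2) ∂μ ≤ ∫ p, ε * u p ^ 2 ∂μ := by
        refine integral_mono ((i1.const_mul (-c)).add iR) (iu2.const_mul ε) fun p => ?_
        have h2 := huL p
        unfold LapSys.op at h2
        rw [hLap] at h2
        have h3 := mul_lt_mul_of_pos_left h2 (hup p)
        simp only
        nlinarith [h3]
      rw [integral_add (f := fun p => -c * (u p * Lap g u p)) (g := fun p => R p * u p ^ 2)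
        (i1.const_mul (-c)) iR, integral_const_mul, integral_const_mul] at e1
      have e2 : ∫ p, u p * Lap g u p ∂μ = -G := by linarith
      rw [e2] at e1
      linarith
    -- the mean
    set a := (∫ p, u p ∂μ) / V with ha
    have hIu : 0 < ∫ p, u p ∂μ := hμ.pos huc (fun p => (hup p).le) (hup x₀)
    have ha0 : 0 < a := by positivity
    have hφ : ∀ x, ContDiffAt ℝ ∞ (fun t : ℝ => t - a) (u x) := fun x =>
      contDiffAt_id.sub contDiffAt_const
    have hz : Sm E (fun x => u x - a) := sm_comp hu hφ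
    have hzc : Continuous (fun x => u x - a) := ContMDiff.continuous hz
    have hzG : ∀ x, Grd g (fun x => u x - a) (fun x => u x - a) x = Grd g u u x := by
      intro x
      rw [grd_comp g hu hφ x]
      have : deriv (fun t : ℝ => t - a) (u x) = 1 := by
        rw [deriv_sub_const, deriv_id'']
      rw [this]
      ring
    have iu : Integrable u μ := ic huc
    have hcV : ∀ t : ℝ, ∫ _ : M, t ∂μ = t * V := by
      intro t
      rw [hVd, ← integral_const_mul]
      simp only [mul_one]
    have hz0 : ∫ p, (u p - a) ∂μ = 0 := by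
      rw [integral_sub iu (integrable_const a), hcV, ha]
      field_simp
      ring
    have hZ := hpoin _ hz hz0
    simp only [hzG] at hZ
    set Z := ∫ p, (u p - a) ^ 2 ∂μ with hZd
    have hZ0 : 0 ≤ Z := integral_nonneg fun q => sq_nonneg _
    have iz : Integrable (fun p => u p - a) μ := ic hzc
    have iz2 : Integrable (fun p => (u p - a) ^ 2) μ := ic (hzc.pow 2)
    have e5 : ∫ p, u p ^ 2 ∂μ = a ^ 2 * V + Z := by
      have e6 : ∀ p, u p ^ 2 = (a ^ 2 + 2 * a * (u p - a)) + (u p - a) ^ 2 := fun p => by ring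
      have e7 : ∫ p, u p ^ 2 ∂μ =
          ∫ p, ((a ^ 2 + 2 * a * (u p - a)) + (u p - a) ^ 2) ∂μ :=
        integral_congr_ae (Eventually.of_forall e6)
      rw [e7, integral_add (f := fun p => a ^ 2 + 2 * a * (u p - a))
        (g := fun p => (u p - a) ^ 2) ((integrable_const _).add (iz.const_mul _)) iz2,
        integral_add (f := fun _ => a ^ 2) (g := fun p => 2 * a * (u p - a))
        (integrable_const _) (iz.const_mul _), integral_const_mul, hz0, hcV]
      ring
    have e8 : a ^ 2 * IR - δ * a ^ 2 * V - (S ^ 2 / δ + S) * Z ≤ ∫ p, R p * u p ^ 2 ∂μ := by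
      have e9 : ∫ p, ((a ^ 2 * R p - δ * a ^ 2) - (S ^ 2 / δ + S) * (u p - a) ^ 2) ∂μ ≤
          ∫ p, R p * u p ^ 2 ∂μ := by
        refine integral_mono ((((ic hR).const_mul _).sub (integrable_const _)).sub
          (iz2.const_mul _)) iR fun p => ?_
        simp only
        have hRS : |R p| ≤ S := hSb p (mem_univ p)
        have hR1 : -S ≤ R p := (abs_le.mp hRS).1
        have hR2 : R p ^ 2 ≤ S ^ 2 := sq_le_sq' hR1 (abs_le.mp hRS).2
        set z := u p - a with hzz
        have hu' : u p = a + z := by rw [hzz]; ring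
        rw [hu']
        have h3 : -(δ * a ^ 2) - R p ^ 2 / δ * z ^ 2 ≤ 2 * a * R p * z := by
          have h4 : 0 ≤ δ * (a + R p * z / δ) ^ 2 := by positivity
          have h5 : δ * (a + R p * z / δ) ^ 2 =
              δ * a ^ 2 + 2 * a * R p * z + R p ^ 2 / δ * z ^ 2 := by
            field_simp
            ring
          linarith
        have h6 : R p ^ 2 / δ * z ^ 2 ≤ S ^ 2 / δ * z ^ 2 := by gcongr
        have h7 : -S * z ^ 2 ≤ R p * z ^ 2 :=
          mul_le_mul_of_nonneg_right hR1 (sq_nonneg z)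
        nlinarith [h3, h6, h7]
      rw [integral_sub (f := fun p => a ^ 2 * R p - δ * a ^ 2)
        (g := fun p => (S ^ 2 / δ + S) * (u p - a) ^ 2)
        (((ic hR).const_mul _).sub (integrable_const _)) (iz2.const_mul _),
        integral_sub (f := fun p => a ^ 2 * R p) (g := fun _ => δ * a ^ 2)
        ((ic hR).const_mul _) (integrable_const _), integral_const_mul, integral_const_mul,
        integral_const_mul, hcV] at e9
      calc a ^ 2 * IR - δ * a ^ 2 * V - (S ^ 2 / δ + S) * Z
          = a ^ 2 * IR - δ * (a ^ 2 * V) - (S ^ 2 / δ + S) * Z := by ring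
        _ ≤ _ := e9
    rw [e5] at hineq
    have hδV : δ * V = IR / 4 := by rw [hδ, div_mul_eq_mul_div, hεV]; ring
    have h10 : c * G + a ^ 2 * (IR / 4) ≤ (S ^ 2 / δ + S + ε) * Z := by
      have h11 : δ * a ^ 2 * V = a ^ 2 * (IR / 4) := by rw [← hδV]; ring
      have h12 : ε * (a ^ 2 * V + Z) = a ^ 2 * (IR / 2) + ε * Z := by rw [← hεV]; ring
      rw [h12] at hineq
      rw [h11] at e8
      linarith
    have h13 : (S ^ 2 / δ + S + ε) * Z ≤ (S ^ 2 / δ + S + ε) * (CP * G) :=
      mul_le_mul_of_nonneg_left hZ (by positivity)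
    have h14 : G + a ^ 2 * (IR / 4) ≤ 0 := by
      have h15 : c * G = (S ^ 2 / δ + S + ε) * (CP * G) + G := by rw [hc]; ring
      linarith
    have h16 : 0 < a ^ 2 * (IR / 4) := by positivity
    linarith

end Pool.Agent.Lib.MP_df705a_gt.Coll
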